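import Pool.Agent.P.MP_0cf807_al.ZMain

set_option autoImplicit false

namespace Pool.Agent.Results.MP_0cf807_al.CharZero

open Pool.Agent.P.MP_0cf807_al

/-- Every free associative algebra over a field of characteristic zero is equationally
Noetherian. -/
theorem result (K : Type) [Field K] [CharZero K] (X : Type) (n : ℕ)
    (S : Set (FreeAlgebra ℤ (FreeAlgebra K X ⊕ Fin n))) :
    ∃ S₀ : Finset (FreeAlgebra ℤ (FreeAlgebra K X ⊕ Fin n)),
      (↑S₀ : Set (FreeAlgebra ℤ (FreeAlgebra K X ⊕ Fin n))) ⊆ S ∧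
      ∀ x : Fin n → FreeAlgebra K X,
        (∀ p ∈ S₀, FreeAlgebra.lift ℤ (Sum.elim (fun r : FreeAlgebra K X => r) x) p = 0) →
        ∀ p ∈ S, FreeAlgebra.lift ℤ (Sum.elim (fun r : FreeAlgebra K X => r) x) p = 0 := by
  obtain ⟨S₀, h, h'⟩ := exists_finset_of_no_chain S (fun _ : Fin n → FreeAlgebra K X => True)
    (fun p x => FreeAlgebra.lift ℤ (Sum.elim (fun r : FreeAlgebra K X => r) x) p = 0)
    fun p x _ => char_zero_no_chain K X n p x
  exact ⟨S₀, h, fun x => h' x trivial⟩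

end Pool.Agent.Results.MP_0cf807_al.CharZero
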