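import Pool.Agent.P.MP_0cf807_al.Main

set_option autoImplicit false

namespace Pool.Agent.Results.MP_0cf807_al.FewComponents

open Pool.Agent.P.MP_0cf807_al

/-- Every system of equations over a finitely generated free associative algebra has a finite
subsystem with the same solutions among the points whose coordinates have at most `r` homogeneous
components for some weighted automaton with `m + 1` states whose weight zero loops commute. -/
theorem result (K : Type) [Field K] (X : Type) [Finite X] (n m r : ℕ)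
    (S : Set (FreeAlgebra ℤ (FreeAlgebra K X ⊕ Fin n))) :
    ∃ S₀ : Finset (FreeAlgebra ℤ (FreeAlgebra K X ⊕ Fin n)),
      (↑S₀ : Set (FreeAlgebra ℤ (FreeAlgebra K X ⊕ Fin n))) ⊆ S ∧
      ∀ x : Fin n → FreeAlgebra K X,
        (∃ (δ : Fin (m + 1) → X → Fin (m + 1)) (ω : Fin (m + 1) → X → ℕ),
          (∀ (q : Fin (m + 1)) (u v : List X), wt δ ω q u = 0 → wt δ ω q v = 0 →
            u.foldl δ q = q → v.foldl δ q = q → u ++ v = v ++ u) ∧
          ∀ (i : Fin n) (q : Fin (m + 1)), ∃ D : Finset ℕ, D.card ≤ r ∧ x i ∈ Submodule.span K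
            {g | ∃ l : List X, wt δ ω q l ∈ D ∧ g = (l.map (FreeAlgebra.ι K)).prod}) →
        (∀ p ∈ S₀, FreeAlgebra.lift ℤ (Sum.elim (fun a : FreeAlgebra K X => a) x) p = 0) →
        ∀ p ∈ S, FreeAlgebra.lift ℤ (Sum.elim (fun a : FreeAlgebra K X => a) x) p = 0 := by
  classical
  have := Fintype.ofFinite (Fin (m + 1) → X → Fin (m + 1))
  choose T hT hT' using fun δ : Fin (m + 1) → X → Fin (m + 1) => exists_finset_of_no_chain S
    (fun x : Fin n → FreeAlgebra K X => ∃ ω : Fin (m + 1) → X → ℕ,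
      (∀ q u v, wt δ ω q u = 0 → wt δ ω q v = 0 → u.foldl δ q = q → v.foldl δ q = q →
        u ++ v = v ++ u) ∧ ∀ i q, ∃ D : Finset ℕ, D.card ≤ r ∧ x i ∈ Submodule.span K
          {g | ∃ l : List X, wt δ ω q l ∈ D ∧ g = (l.map (FreeAlgebra.ι K)).prod})
    (fun p x => FreeAlgebra.lift ℤ (Sum.elim (fun a : FreeAlgebra K X => a) x) p = 0)
    (few_noetherian 0 δ n r)
  refine ⟨Finset.univ.biUnion T, ?_, fun x ⟨δ, hx⟩ h => hT' δ x hx fun p hp =>
    h p (Finset.mem_biUnion.2 ⟨δ, Finset.mem_univ _, hp⟩)⟩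
  intro p hp
  obtain ⟨δ, -, hp⟩ := Finset.mem_biUnion.1 hp
  exact hT δ hp

end Pool.Agent.Results.MP_0cf807_al.FewComponents
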